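import Pool.Agent.W262.SH.Stm
import Pool.Agent.W342.RK2.LocL

/-!
# Project SH, part LOCL2: local conditions for points over the p-adic numbers

The proofs follow those of helper22 (file Loc) and helper342 (file LocL) for rational points.
-/

set_option autoImplicit false

namespace Pool.Agent.W131.SH

open Pool.Agent.W262.RK Pool.Agent.W22.RK Pool.Agent.W342.RK2

section aux

variable {p : ℕ} [hp : Fact p.Prime]

lemma v_mul3' {x a b : ℚ} {y : ℚ_[p]} (hx : x ≠ 0) (ha : a ≠ 0) (hb : b ≠ 0)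
    (hxy : y ^ 2 = ((x * a * b : ℚ) : ℚ_[p])) :
    padicValRat p x + padicValRat p a + padicValRat p b = 2 * y.valuation := by
  have h0 : y ≠ 0 := by
    rintro rfl
    have h1 : ((x * a * b : ℚ) : ℚ_[p]) = 0 := by rw [← hxy]; simp
    exact mul_ne_zero (mul_ne_zero hx ha) hb (by exact_mod_cast h1)
  have h1 : Padic.valuation ((x * a * b : ℚ) : ℚ_[p]) = y.valuation + y.valuation := by
    rw [← hxy, pow_two, Padic.valuation_mul h0 h0]
  rw [Padic.valuation_ratCast, padicValRat.mul (mul_ne_zero hx ha) hb, padicValRat.mul hx ha] at h1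
  rw [h1]
  ring

lemma exists_y {x a b e1 e2 : ℚ} (hx : x ≠ 0) (ha : a ≠ 0) (hb : b ≠ 0) (he1 : e1 ≠ 0)
    (he2 : e2 ≠ 0) (h1 : IsSquare ((x * e1 : ℚ) : ℚ_[p])) (h2 : IsSquare ((a * e2 : ℚ) : ℚ_[p]))
    (h3 : IsSquare ((b * (e1 * e2) : ℚ) : ℚ_[p])) :
    ∃ y : ℚ_[p], y ≠ 0 ∧ y ^ 2 = ((x * a * b : ℚ) : ℚ_[p]) := by
  obtain ⟨u, hu⟩ := h1
  obtain ⟨w, hw⟩ := h2
  obtain ⟨v, hv⟩ := h3
  have h1c : ((e1 : ℚ) : ℚ_[p]) ≠ 0 := by exact_mod_cast he1
  have h2c : ((e2 : ℚ) : ℚ_[p]) ≠ 0 := by exact_mod_cast he2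
  have key : (u * w * v / (e1 * e2)) ^ 2 = ((x * a * b : ℚ) : ℚ_[p]) := by
    have e : (u * w * v / (e1 * e2)) ^ 2 = (u * u) * (w * w) * (v * v) / (e1 * e2) ^ 2 := by
      rw [div_pow]
      ring
    rw [e, ← hu, ← hw, ← hv]
    push_cast
    field_simp
  refine ⟨_, ?_, key⟩
  intro h
  rw [h] at key
  have h4 : ((x * a * b : ℚ) : ℚ_[p]) = 0 := by rw [← key]; simp
  exact mul_ne_zero (mul_ne_zero hx ha) hb (by exact_mod_cast h4)

/-- the third square class -/
lemma third' {x a b e1 e2 : ℚ} {y : ℚ_[p]} (hx : x ≠ 0) (ha : a ≠ 0) (he1 : e1 ≠ 0) (he2 : e2 ≠ 0)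
    (hxy : y ^ 2 = ((x * a * b : ℚ) : ℚ_[p]))
    (h1 : IsSquare ((x * e1 : ℚ) : ℚ_[p])) (h2 : IsSquare ((a * e2 : ℚ) : ℚ_[p])) :
    IsSquare ((b * (e1 * e2) : ℚ) : ℚ_[p]) := by
  obtain ⟨u, hu⟩ := h1
  obtain ⟨w, hw⟩ := h2
  have hxc : ((x : ℚ) : ℚ_[p]) ≠ 0 := by exact_mod_cast hx
  have hac : ((a : ℚ) : ℚ_[p]) ≠ 0 := by exact_mod_cast ha
  have h1c : ((e1 : ℚ) : ℚ_[p]) ≠ 0 := by exact_mod_cast he1
  have h2c : ((e2 : ℚ) : ℚ_[p]) ≠ 0 := by exact_mod_cast he2
  push_cast at hu hw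
  have hu0 : u ≠ 0 := by
    rintro rfl
    rw [mul_zero] at hu
    exact (mul_ne_zero hxc h1c) hu
  have hw0 : w ≠ 0 := by
    rintro rfl
    rw [mul_zero] at hw
    exact (mul_ne_zero hac h2c) hw
  have hyc : y ^ 2 = x * ((a : ℚ) : ℚ_[p]) * ((b : ℚ) : ℚ_[p]) := by
    rw [hxy]
    push_cast
    ring
  refine ⟨y * e1 * e2 / (u * w), ?_⟩
  rw [← pow_two, div_pow]
  have e : (u * w) ^ 2 = (x : ℚ_[p]) * e1 * (a * e2) := by
    rw [hu, hw]
    ring
  rw [e, mul_pow, mul_pow, hyc]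
  push_cast
  field_simp

end aux

theorem good' (p : ℕ) [Fact p.Prime] (A B : ℤ) (hAB : ¬ (p : ℤ) ∣ 2 * A * B * (A - B)) (x : ℚ)
    (y : ℚ_[p]) (hy : y ≠ 0) (hxy : y ^ 2 = ((x * (x - A) * (x - B) : ℚ) : ℚ_[p])) :
    Even (padicValRat p x) ∧ Even (padicValRat p (x - A)) ∧ Even (padicValRat p (x - B)) := by
  have hA : ¬ (p : ℤ) ∣ A := fun h => hAB (Dvd.dvd.mul_right (Dvd.dvd.mul_right
    (Dvd.dvd.mul_left h 2) B) _)
  have hB : ¬ (p : ℤ) ∣ B := fun h => hAB (Dvd.dvd.mul_right (Dvd.dvd.mul_left h _) _)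
  have hC : ¬ (p : ℤ) ∣ (A - B) := fun h => hAB (Dvd.dvd.mul_left h _)
  have hA0 : (A : ℚ) ≠ 0 := by
    intro h
    apply hA
    have : A = 0 := by exact_mod_cast h
    simp [this]
  have hB0 : (B : ℚ) ≠ 0 := by
    intro h
    apply hB
    have : B = 0 := by exact_mod_cast h
    simp [this]
  have hC0 : ((A : ℚ) - B) ≠ 0 := by
    intro h
    apply hC
    have : A - B = 0 := by exact_mod_cast h
    simp [this]
  have hy2 : y ^ 2 ≠ 0 := pow_ne_zero 2 hy
  rw [hxy] at hy2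
  replace hy2 : x * (x - A) * (x - B) ≠ 0 := fun h => hy2 (by rw [h, Rat.cast_zero])
  have hx : x ≠ 0 := left_ne_zero_of_mul (left_ne_zero_of_mul hy2)
  have hxA : x - A ≠ 0 := right_ne_zero_of_mul (left_ne_zero_of_mul hy2)
  have hxB : x - B ≠ 0 := right_ne_zero_of_mul hy2
  have vA : padicValRat p (A : ℚ) = 0 := v_int hA
  have vB : padicValRat p (B : ℚ) = 0 := v_int hB
  have vC : padicValRat p ((A : ℚ) - B) = 0 := by
    have := v_int (p := p) hC
    push_cast at this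
    exact this
  have vA' : padicValRat p (-(A : ℚ)) = 0 := by rw [v_neg, vA]
  have vB' : padicValRat p (-(B : ℚ)) = 0 := by rw [v_neg, vB]
  have vC' : padicValRat p ((B : ℚ) - A) = 0 := by rw [← neg_sub, v_neg, vC]
  have hC0' : ((B : ℚ) - A) ≠ 0 := by
    rw [← neg_sub]
    exact neg_ne_zero.2 hC0
  have hsum := v_mul3' (p := p) hx hxA hxB hxy
  have eA : x + -(A : ℚ) = x - A := by ring
  have eB : x + -(B : ℚ) = x - B := by ring
  rcases lt_trichotomy (padicValRat p x) 0 with h | h | h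
  · have h1 : padicValRat p (x - A) = padicValRat p x := by
      rw [← eA]
      exact v_add hx (neg_ne_zero.2 hA0) (by rw [eA]; exact hxA) (by rw [vA']; exact h)
    have h2 : padicValRat p (x - B) = padicValRat p x := by
      rw [← eB]
      exact v_add hx (neg_ne_zero.2 hB0) (by rw [eB]; exact hxB) (by rw [vB']; exact h)
    rw [h1, h2] at hsum ⊢
    have : Even (padicValRat p x) := by
      rw [Int.even_iff]
      omega
    exact ⟨this, this, this⟩
  · have h1 : 0 ≤ padicValRat p (x - A) := by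
      rw [← eA]
      have := padicValRat.min_le_padicValRat_add (p := p) (q := x) (r := -(A : ℚ))
        (by rw [eA]; exact hxA)
      rw [h, vA', min_self] at this
      exact this
    have h2 : 0 ≤ padicValRat p (x - B) := by
      rw [← eB]
      have := padicValRat.min_le_padicValRat_add (p := p) (q := x) (r := -(B : ℚ))
        (by rw [eB]; exact hxB)
      rw [h, vB', min_self] at this
      exact this
    rw [h] at hsum ⊢
    rcases h1.eq_or_lt with h3 | h3
    · rw [← h3] at hsum ⊢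
      refine ⟨Even.zero, Even.zero, ?_⟩
      rw [Int.even_iff]
      omega
    · have h4 : padicValRat p (x - B) = 0 := by
        have e : ((A : ℚ) - B) + (x - A) = x - B := by ring
        rw [← e, v_add hC0 hxA (by rw [e]; exact hxB) (by rw [vC]; exact h3), vC]
      rw [h4] at hsum ⊢
      refine ⟨Even.zero, ?_, Even.zero⟩
      rw [Int.even_iff]
      omega
  · have h1 : padicValRat p (x - A) = 0 := by
      have e : -(A : ℚ) + x = x - A := by ring
      rw [← e, v_add (neg_ne_zero.2 hA0) hx (by rw [e]; exact hxA) (by rw [vA']; exact h), vA']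
    have h2 : padicValRat p (x - B) = 0 := by
      have e : -(B : ℚ) + x = x - B := by ring
      rw [← e, v_add (neg_ne_zero.2 hB0) hx (by rw [e]; exact hxB) (by rw [vB']; exact h), vB']
    rw [h1, h2] at hsum ⊢
    refine ⟨?_, Even.zero, Even.zero⟩
    rw [Int.even_iff]
    omega

theorem loc' (p : ℕ) [hpf : Fact p.Prime] (A B : ℤ) (hp2 : p ≠ 2) (hpA : (p : ℤ) ∣ A)
    (hpA2 : ¬ (p : ℤ) ^ 2 ∣ A) (hpB : ¬ (p : ℤ) ∣ B) (x : ℚ) (y : ℚ_[p]) (hy : y ≠ 0)
    (hxy : y ^ 2 = ((x * (x - A) * (x - B) : ℚ) : ℚ_[p])) :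
    Even (padicValRat p (x - B)) ∧ (Even (padicValRat p x) ↔ Even (padicValRat p (x - A))) ∧
    (Even (padicValRat p x) → IsSquare ((x - B : ℚ) : ℚ_[p])) ∧
    (¬ Even (padicValRat p x) → IsSquare ((-B * (x - B) : ℚ) : ℚ_[p])) := by
  have hA0 : (A : ℚ) ≠ 0 := by
    intro h
    apply hpA2
    have : A = 0 := by exact_mod_cast h
    simp [this]
  have hB0 : (B : ℚ) ≠ 0 := by
    intro h
    apply hpB
    have : B = 0 := by exact_mod_cast h
    simp [this]
  have hy2 : y ^ 2 ≠ 0 := pow_ne_zero 2 hy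
  rw [hxy] at hy2
  replace hy2 : x * (x - A) * (x - B) ≠ 0 := fun h => hy2 (by rw [h, Rat.cast_zero])
  have hx : x ≠ 0 := left_ne_zero_of_mul (left_ne_zero_of_mul hy2)
  have hxA : x - A ≠ 0 := right_ne_zero_of_mul (left_ne_zero_of_mul hy2)
  have hxB : x - B ≠ 0 := right_ne_zero_of_mul hy2
  have vA : padicValRat p (A : ℚ) = 1 := by
    have hA0' : A ≠ 0 := by exact_mod_cast hA0
    rw [padicValRat.of_int]
    have h1 := (padicValInt_dvd_iff (p := p) 1 A).1 (by simpa using hpA)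
    have h2 := mt (padicValInt_dvd_iff (p := p) 2 A).2 hpA2
    push Not at h2
    have h3 := h2.2
    rcases h1 with h1 | h1
    · exact absurd h1 hA0'
    · omega
  have vB : padicValRat p (B : ℚ) = 0 := v_int hpB
  have vA' : padicValRat p (-(A : ℚ)) = 1 := by rw [v_neg, vA]
  have vB' : padicValRat p (-(B : ℚ)) = 0 := by rw [v_neg, vB]
  have hsum := v_mul3' (p := p) hx hxA hxB hxy
  have eA : x + -(A : ℚ) = x - A := by ring
  have eB : x + -(B : ℚ) = x - B := by ring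
  have hxc : ((x : ℚ) : ℚ_[p]) ≠ 0 := by exact_mod_cast hx
  -- squares
  have sqA : padicValRat p x < 1 → ∃ u : ℚ_[p], u ≠ 0 ∧ ((x - A : ℚ) : ℚ_[p]) = x * u ^ 2 := by
    intro h
    have h1 : 0 < padicValRat p (-(A : ℚ) / x) := by
      rw [padicValRat.div (neg_ne_zero.2 hA0) hx, vA']
      omega
    obtain ⟨u, hu⟩ := isSquare_one_add_rat hp2 (-(A : ℚ) / x) (Or.inr h1)
    have h2 : ((x - A : ℚ) : ℚ_[p]) = x * u ^ 2 := by
      rw [pow_two, ← hu, ← Rat.cast_mul]
      congr 1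
      field_simp
      ring
    refine ⟨u, ?_, h2⟩
    rintro rfl
    have h3 : ((x - A : ℚ) : ℚ_[p]) ≠ 0 := by exact_mod_cast hxA
    apply h3
    rw [h2]
    ring
  have hyc : y ^ 2 = x * ((x - A : ℚ) : ℚ_[p]) * ((x - B : ℚ) : ℚ_[p]) := by
    rw [hxy]
    push_cast
    ring
  rcases lt_trichotomy (padicValRat p x) 0 with h | h | h
  · have h1 : padicValRat p (x - A) = padicValRat p x := by
      rw [← eA]
      exact v_add hx (neg_ne_zero.2 hA0) (by rw [eA]; exact hxA) (by rw [vA']; omega)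
    have h2 : padicValRat p (x - B) = padicValRat p x := by
      rw [← eB]
      exact v_add hx (neg_ne_zero.2 hB0) (by rw [eB]; exact hxB) (by rw [vB']; exact h)
    obtain ⟨u, hu0, hu⟩ := sqA (by omega)
    have hev : Even (padicValRat p x) := by
      rw [h1, h2] at hsum
      rw [Int.even_iff]
      omega
    rw [h1, h2]
    refine ⟨hev, Iff.rfl, fun _ => ?_, fun h => absurd hev h⟩
    -- x - B = (y / (x u)) ^ 2
    refine ⟨y / (x * u), ?_⟩
    rw [← pow_two, div_pow, hyc, hu]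
    field_simp
  · have h1 : padicValRat p (x - A) = 0 := by
      rw [← eA, v_add hx (neg_ne_zero.2 hA0) (by rw [eA]; exact hxA) (by rw [vA', h]; norm_num), h]
    obtain ⟨u, hu0, hu⟩ := sqA (by omega)
    rw [h, h1] at hsum ⊢
    refine ⟨?_, Iff.rfl, fun _ => ?_, fun h => absurd Even.zero h⟩
    · rw [Int.even_iff]
      omega
    · refine ⟨y / (x * u), ?_⟩
      rw [← pow_two, div_pow, hyc, hu]
      field_simp
  · have h1 : padicValRat p (x - B) = 0 := by
      have e : -(B : ℚ) + x = x - B := by ring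
      rw [← e, v_add (neg_ne_zero.2 hB0) hx (by rw [e]; exact hxB) (by rw [vB']; exact h), vB']
    have hodd : ¬ Even (padicValRat p x) ∧ ¬ Even (padicValRat p (x - A)) := by
      rw [h1] at hsum
      rcases eq_or_ne (padicValRat p x) 1 with h2 | h2
      · rw [h2] at hsum ⊢
        refine ⟨by decide, ?_⟩
        rw [Int.even_iff]
        omega
      · have h3 : padicValRat p (x - A) = 1 := by
          have e : -(A : ℚ) + x = x - A := by ring
          rw [← e, v_add (neg_ne_zero.2 hA0) hx (by rw [e]; exact hxA) (by rw [vA']; omega), vA']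
        rw [h3] at hsum ⊢
        refine ⟨?_, by decide⟩
        rw [Int.even_iff]
        omega
    refine ⟨by rw [h1]; exact Even.zero, ⟨fun h => absurd h hodd.1, fun h => absurd h hodd.2⟩,
      fun h => absurd h hodd.1, fun _ => ?_⟩
    have h4 : 0 < padicValRat p (-x / (B : ℚ)) := by
      rw [padicValRat.div (neg_ne_zero.2 hx) hB0, vB, v_neg]
      omega
    obtain ⟨u, hu⟩ := isSquare_one_add_rat hp2 (-x / (B : ℚ)) (Or.inr h4)
    refine ⟨((B : ℚ) : ℚ_[p]) * u, ?_⟩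
    have : ((B : ℚ) : ℚ_[p]) * u * (((B : ℚ) : ℚ_[p]) * u) = ((B : ℚ) : ℚ_[p]) ^ 2 * (u * u) := by
      ring
    rw [this, ← hu, ← Rat.cast_pow, ← Rat.cast_mul]
    congr 1
    field_simp
    ring

theorem locl2 : Pool.Agent.W262.SH.LOCL2 := by
  intro c κ neg p hpf A B hp2 hκ hL e1 e2 he1 he2 hsol
  obtain ⟨x, hx, hxA', hxB', hs1, hs2, hthird⟩ := hsol
  have hq1 := not_sq_of_squarefree (p := p) he1
  have hq2 := not_sq_of_squarefree (p := p) he2
  have he10 : e1 ≠ 0 := by rintro rfl; exact hq1 (dvd_zero _)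
  have he20 : e2 ≠ 0 := by rintro rfl; exact hq2 (dvd_zero _)
  have hxA : x - A ≠ 0 := sub_ne_zero.2 hxA'
  have hxB : x - B ≠ 0 := sub_ne_zero.2 hxB'
  obtain ⟨y, hy, hxy⟩ := exists_y (p := p) hx hxA hxB (Int.cast_ne_zero.2 he10)
    (Int.cast_ne_zero.2 he20) hs1 hs2 hthird
  unfold LocH at hL
  unfold LL
  by_cases c0 : c = 0
  · -- class 0
    rw [if_pos c0] at hL ⊢
    obtain ⟨hA, hA2, hB, hj⟩ := hL
    obtain ⟨-, -, hsq1, hsq2⟩ := loc' p A B hp2 hA hA2 hB x y hy hxy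
    have hxBc : ((x - B : ℚ) : ℚ_[p]) ≠ 0 := by exact_mod_cast hxB
    have hnB : ¬ (p : ℤ) ∣ -B := not_dvd_neg hB
    by_cases hev : Even (padicValRat p x)
    · have hv := (par hx hq1 hs1).1 hev
      have h1 : IsSquare ((e1 * e2 : ℚ) : ℚ_[p]) := by
        obtain ⟨u, hu⟩ := hthird
        obtain ⟨w, hw⟩ := hsq1 hev
        refine ⟨u / w, ?_⟩
        have hw0 : w ≠ 0 := by
          rintro rfl
          rw [mul_zero] at hw
          exact hxBc hw
        field_simp
        rw [pow_two, pow_two, ← hu, ← hw]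
        push_cast
        ring
      obtain ⟨k1, k2⟩ := cmp hq1 hq2 h1
      refine ⟨k1, ?_⟩
      rw [hv, k2]
      simp
    · have hv : dv p e1 = true := by
        have := mt (par hx hq1 hs1).2 hev
        simpa using this
      have h1 : IsSquare ((e1 * ((e2 * -B : ℤ) : ℚ) : ℚ) : ℚ_[p]) := by
        obtain ⟨u, hu⟩ := hthird
        obtain ⟨w, hw⟩ := hsq2 hev
        have hBc : ((B : ℤ) : ℚ_[p]) ≠ 0 := by
          intro h
          apply hB
          have : B = 0 := by exact_mod_cast h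
          simp [this]
        push_cast at hw hu hxBc
        refine ⟨u * w / (x - B), ?_⟩
        have : u * w / ((x : ℚ_[p]) - B) * (u * w / (x - B)) =
            (u * u) * (w * w) / ((x - B) * (x - B)) := by
          rw [div_mul_div_comm]
          ring
        rw [this, ← hu, ← hw]
        push_cast
        field_simp
      obtain ⟨k1, k2⟩ := cmp hq1 (not_sq_mul_unit hq2 hnB) h1
      rw [dv_mul_unit hnB] at k1
      rw [sgn_mul_unit hq2 hnB] at k2
      have k3 := sg0_eq_false hj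
      rw [sg0_mul (hκ 0) hnB] at k3
      refine ⟨k1, ?_⟩
      rw [k2, hv]
      revert k3
      generalize sg0 p (κ 0) = s
      generalize sg0 p (-B) = t
      generalize sgn p e2 = r
      revert s t r
      decide
  rw [if_neg c0] at hL ⊢
  by_cases c1 : c = 1
  · -- class 1
    rw [if_pos c1] at hL ⊢
    obtain ⟨hB, hB2, hA, hj⟩ := hL
    obtain ⟨-, -, hsq1, hsq2⟩ := loc' p B A hp2 hB hB2 hA x y hy
      (by rw [hxy]; congr 1; ring)
    have hnA : ¬ (p : ℤ) ∣ -A := not_dvd_neg hA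
    by_cases hev : Even (padicValRat p x)
    · have hv := (par hx hq1 hs1).1 hev
      have h1 : IsSquare (((x - A) * ((1 : ℤ) : ℚ) : ℚ) : ℚ_[p]) := by
        have := hsq1 hev
        push_cast at this ⊢
        rwa [mul_one]
      obtain ⟨k1, k2⟩ := cmpx hxA hq2 (not_sq_of_unit not_dvd_one) hs2 h1
      rw [dv_unit not_dvd_one] at k1
      rw [sgn_unit not_dvd_one, sg0_one] at k2
      exact ⟨k1, by rw [k2, hv]; simp⟩
    · have hv : dv p e1 = true := by
        have := mt (par hx hq1 hs1).2 hev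
        simpa using this
      have h1 : IsSquare (((x - A) * ((-A : ℤ) : ℚ) : ℚ) : ℚ_[p]) := by
        have := hsq2 hev
        rw [mul_comm] at this
        push_cast at this ⊢
        exact this
      obtain ⟨k1, k2⟩ := cmpx hxA hq2 (not_sq_of_unit hnA) hs2 h1
      rw [dv_unit hnA] at k1
      rw [sgn_unit hnA] at k2
      have k3 := sg0_eq_false hj
      rw [sg0_mul (hκ 0) hnA] at k3
      refine ⟨k1, ?_⟩
      rw [k2, hv]
      revert k3
      generalize sg0 p (κ 0) = s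
      generalize sg0 p (-A) = t
      revert s t
      decide
  rw [if_neg c1] at hL ⊢
  by_cases c2 : c = 2
  · -- class 2
    rw [if_pos c2] at hL ⊢
    obtain ⟨hC, hC2, hA, hj⟩ := hL
    have hC' : (p : ℤ) ∣ B - A := by rw [← neg_sub]; exact hC.neg_right
    have hC2' : ¬ (p : ℤ) ^ 2 ∣ B - A := by
      intro h
      apply hC2
      rw [← neg_sub]
      exact h.neg_right
    have hnA : ¬ (p : ℤ) ∣ -A := not_dvd_neg hA
    obtain ⟨-, -, hsq1, hsq2⟩ := loc' p (B - A) (-A) hp2 hC' hC2' hnA (x - A) y hy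
      (by rw [hxy]; congr 1; push_cast; ring)
    by_cases hev : Even (padicValRat p (x - A))
    · have hv := (par hxA hq2 hs2).1 hev
      have h1 : IsSquare ((x * ((1 : ℤ) : ℚ) : ℚ) : ℚ_[p]) := by
        have := hsq1 hev
        push_cast at this ⊢
        rw [mul_one]
        convert this using 1
        ring
      obtain ⟨k1, k2⟩ := cmpx hx hq1 (not_sq_of_unit not_dvd_one) hs1 h1
      rw [dv_unit not_dvd_one] at k1
      rw [sgn_unit not_dvd_one, sg0_one] at k2
      exact ⟨k1, by rw [k2, hv]; simp⟩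
    · have hv : dv p e2 = true := by
        have := mt (par hxA hq2 hs2).2 hev
        simpa using this
      have h1 : IsSquare ((x * (A : ℚ) : ℚ) : ℚ_[p]) := by
        have := hsq2 hev
        push_cast at this ⊢
        convert this using 1
        ring
      obtain ⟨k1, k2⟩ := cmpx hx hq1 (not_sq_of_unit hA) hs1 h1
      rw [dv_unit hA] at k1
      rw [sgn_unit hA] at k2
      have k3 := sg0_eq_false hj
      rw [sg0_mul (hκ 0) hA] at k3
      refine ⟨k1, ?_⟩
      rw [k2, hv]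
      revert k3
      generalize sg0 p (κ 0) = s
      generalize sg0 p A = t
      revert s t
      decide
  rw [if_neg c2] at hL ⊢
  -- class 3
  obtain ⟨hA, hB, hA2, hB2, hC2, jA, jB, jC⟩ := hL
  have hC : (p : ℤ) ∣ A - B := dvd_sub hA hB
  have hpz : ((p : ℤ)) ≠ 0 := by exact_mod_cast hpf.out.ne_zero
  have hpc : ((p : ℕ) : ℚ_[p]) ≠ 0 := by exact_mod_cast hpf.out.ne_zero
  have vA := v_of_exact hA hA2
  have vB := v_of_exact hB hB2
  have vC := v_of_exact hC hC2
  push_cast at vC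
  have hA0 : (A : ℚ) ≠ 0 := by
    intro h
    rw [h] at vA
    simp at vA
  have hB0 : (B : ℚ) ≠ 0 := by
    intro h
    rw [h] at vB
    simp at vB
  have hC0 : (A : ℚ) - B ≠ 0 := by
    intro h
    rw [h] at vC
    simp at vC
  obtain ⟨A1, rfl⟩ := hA
  obtain ⟨B1, rfl⟩ := hB
  have hA1 : ¬ (p : ℤ) ∣ A1 := fun h => hA2 (by rw [pow_two]; exact mul_dvd_mul_left _ h)
  have hB1 : ¬ (p : ℤ) ∣ B1 := fun h => hB2 (by rw [pow_two]; exact mul_dvd_mul_left _ h)
  have hC1 : ¬ (p : ℤ) ∣ A1 - B1 := fun h => hC2 (by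
    rw [pow_two, ← mul_sub]; exact mul_dvd_mul_left _ h)
  rw [Int.mul_ediv_cancel_left _ hpz] at jA jB
  rw [← mul_sub, Int.mul_ediv_cancel_left _ hpz] at jC
  have sgj : ∀ k : ℤ, jacobiSym k p = (if neg then -1 else 1) → sg0 p k = neg := by
    intro k hk
    unfold sg0
    rw [hk]
    cases neg <;> decide
  have kA := sgj _ jA
  have kB := sgj _ jB
  have kC := sgj _ jC
  rw [sg0_mul (hκ 0) hA1] at kA
  rw [sg0_mul (hκ 1) hB1] at kB
  rw [sg0_mul (hκ 2) hC1] at kC
  have m01 := sg0_mul (hκ 0) (hκ 1)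
  have m02 := sg0_mul (hκ 0) (hκ 2)
  have m0 := sg0_neg (hκ 0)
  have m2 := sg0_neg (hκ 2)
  have hpq : ((p : ℚ)) ≠ 0 := by exact_mod_cast hpf.out.ne_zero
  have hnA0 : -((p * A1 : ℤ) : ℚ) ≠ 0 := neg_ne_zero.2 hA0
  have hnB0 : -((p * B1 : ℤ) : ℚ) ≠ 0 := neg_ne_zero.2 hB0
  have fin : ∀ E F : ℤ, ¬ (p : ℤ) ^ 2 ∣ E → ¬ (p : ℤ) ^ 2 ∣ F →
      IsSquare ((x * (E : ℚ) : ℚ) : ℚ_[p]) →
      IsSquare (((x - (p * A1 : ℤ)) * (F : ℚ) : ℚ) : ℚ_[p]) →
      dv p e1 = dv p E ∧ sgn p e1 = sgn p E ∧ dv p e2 = dv p F ∧ sgn p e2 = sgn p F := by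
    intro E F hE hF h1 h2
    obtain ⟨k1, k2⟩ := cmpx hx hq1 hE hs1 h1
    obtain ⟨k3, k4⟩ := cmpx hxA hq2 hF hs2 h2
    exact ⟨k1, k2, k3, k4⟩
  have hsum := v_mul3' (p := p) hx hxA hxB hxy
  rcases lt_or_ge (padicValRat p x) 1 with hv | hv
  · -- all squares
    have h1 : IsSquare (((x - (p * A1 : ℤ)) * x : ℚ) : ℚ_[p]) := by
      apply near hp2 hx
      right
      have e : x - ((p * A1 : ℤ) : ℚ) - x = -((p * A1 : ℤ) : ℚ) := by ring
      rw [e, v_neg, vA]
      exact hv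
    have h2 : IsSquare (((x - (p * B1 : ℤ)) * x : ℚ) : ℚ_[p]) := by
      apply near hp2 hx
      right
      have e : x - ((p * B1 : ℤ) : ℚ) - x = -((p * B1 : ℤ) : ℚ) := by ring
      rw [e, v_neg, vB]
      exact hv
    have h3 : IsSquare ((x : ℚ) : ℚ_[p]) :=
      sq_cancel hx (third' hxA hxB hx hx (by rw [hxy]; congr 1; ring) h1 h2)
    have h4 : IsSquare (((x - (p * A1 : ℤ)) : ℚ) : ℚ_[p]) := by
      apply sq_cancel hx
      have := sq_mul h1 h3
      rwa [mul_assoc] at this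
    obtain ⟨k1, k2, k3, k4⟩ := fin 1 1 (not_sq_of_unit not_dvd_one) (not_sq_of_unit not_dvd_one)
      (by push_cast at h3 ⊢; rwa [mul_one]) (by push_cast at h4 ⊢; rwa [mul_one])
    rw [k1, k2, k3, k4, dv_unit not_dvd_one, sgn_unit not_dvd_one, sg0_one]
    simp
  rcases hv.lt_or_eq with hv | hv
  · -- x = AB
    have h1 : IsSquare (((x - (p * A1 : ℤ)) * (-((p * A1 : ℤ) : ℚ)) : ℚ) : ℚ_[p]) := by
      apply near hp2 hnA0
      right
      have e : x - ((p * A1 : ℤ) : ℚ) - -((p * A1 : ℤ) : ℚ) = x := by ring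
      rw [e, v_neg, vA]
      exact hv
    have h2 : IsSquare (((x - (p * B1 : ℤ)) * (-((p * B1 : ℤ) : ℚ)) : ℚ) : ℚ_[p]) := by
      apply near hp2 hnB0
      right
      have e : x - ((p * B1 : ℤ) : ℚ) - -((p * B1 : ℤ) : ℚ) = x := by ring
      rw [e, v_neg, vB]
      exact hv
    have h3 := third' hxA hxB hnA0 hnB0 (by rw [hxy]; congr 1; ring) h1 h2
    have h4 : IsSquare ((x * ((A1 * B1 : ℤ) : ℚ) : ℚ) : ℚ_[p]) := by
      apply sq_cancel hpq
      convert h3 using 2
      push_cast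
      ring
    have hnA1 := not_dvd_neg hA1
    have hF : ¬ (p : ℤ) ^ 2 ∣ p * (-A1) := by
      rw [mul_neg, dvd_neg]
      exact hA2
    obtain ⟨k1, k2, k3, k4⟩ := fin (A1 * B1) (p * (-A1)) (not_sq_of_unit (not_dvd_mul hA1 hB1)) hF
      h4 (by convert h1 using 2; push_cast; ring)
    rw [k1, k2, k3, k4, dv_unit (not_dvd_mul hA1 hB1), dv_mul, sgn_mul,
      sgn_unit (not_dvd_mul hA1 hB1), sg0_mul hA1 hB1, sg0_neg hA1, m01, m02, m0, m2]
    clear jA jB jC sgj kC fin
    revert kA kB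
    generalize sg0 p A1 = s1
    generalize sg0 p B1 = s2
    generalize sg0 p (κ 0) = t1
    generalize sg0 p (κ 1) = t2
    generalize sg0 p (κ 2) = t3
    generalize sg0 p (-1) = t4
    revert neg s1 s2 t1 t2 t3 t4
    decide
  · by_cases hv2 : 1 < padicValRat p (x - (p * A1 : ℤ))
    · have h1 : IsSquare ((x * ((p * A1 : ℤ) : ℚ) : ℚ) : ℚ_[p]) := by
        apply near hp2 hA0
        right
        rw [vA]
        exact hv2
      have h2 : IsSquare (((x - (p * B1 : ℤ)) * ((p * A1 : ℤ) - (p * B1 : ℤ)) : ℚ) : ℚ_[p]) := by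
        apply near hp2 hC0
        right
        have e : x - ((p * B1 : ℤ) : ℚ) - (((p * A1 : ℤ) : ℚ) - ((p * B1 : ℤ) : ℚ)) =
          x - ((p * A1 : ℤ) : ℚ) := by ring
        rw [e]
        rw [vC]
        exact hv2
      have h3 := third' (b := x - ((p * A1 : ℤ) : ℚ)) hx hxB hA0 hC0
        (by rw [hxy]; congr 1; ring) h1 h2
      have h4 : IsSquare (((x - (p * A1 : ℤ)) * ((A1 * (A1 - B1) : ℤ) : ℚ) : ℚ) : ℚ_[p]) := by
        apply sq_cancel hpq
        convert h3 using 2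
        push_cast
        ring
      obtain ⟨k1, k2, k3, k4⟩ := fin (p * A1) (A1 * (A1 - B1)) hA2
        (not_sq_of_unit (not_dvd_mul hA1 hC1)) h1 h4
      rw [k1, k2, k3, k4, dv_unit (not_dvd_mul hA1 hC1), dv_mul, sgn_mul,
        sgn_unit (not_dvd_mul hA1 hC1), sg0_mul hA1 hC1, m01, m02, m0, m2]
      clear jA jB jC sgj kB fin
      revert kA kC
      generalize sg0 p A1 = s1
      generalize sg0 p (A1 - B1) = s2
      generalize sg0 p (κ 0) = t1
      generalize sg0 p (κ 1) = t2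
      generalize sg0 p (κ 2) = t3
      generalize sg0 p (-1) = t4
      revert neg s1 s2 t1 t2 t3 t4
      decide
    · have hge : ∀ D : ℚ, padicValRat p D = 1 → x - D ≠ 0 → 1 ≤ padicValRat p (x - D) := by
        intro D hD h
        have := padicValRat.min_le_padicValRat_add (p := p) (q := x) (r := -D)
          (by rwa [← sub_eq_add_neg])
        rw [← sub_eq_add_neg, v_neg, hD, ← hv, min_self] at this
        exact this
      have hgA := hge _ vA hxA
      have hgB := hge _ vB hxB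
      have hv3 : 1 < padicValRat p (x - (p * B1 : ℤ)) := by omega
      have h1 : IsSquare ((x * ((p * B1 : ℤ) : ℚ) : ℚ) : ℚ_[p]) := by
        apply near hp2 hB0
        right
        rw [vB]
        exact hv3
      have hC0' : ((p * (-(A1 - B1)) : ℤ) : ℚ) ≠ 0 := by
        intro h
        apply hC0
        push_cast at h ⊢
        linarith
      have h2 : IsSquare (((x - (p * A1 : ℤ)) * ((p * (-(A1 - B1)) : ℤ) : ℚ) : ℚ) : ℚ_[p]) := by
        apply near hp2 hC0'
        right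
        have e : x - ((p * A1 : ℤ) : ℚ) - ((p * (-(A1 - B1)) : ℤ) : ℚ) =
          x - ((p * B1 : ℤ) : ℚ) := by push_cast; ring
        have e3 : ((p * (-(A1 - B1)) : ℤ) : ℚ) =
            -(((p * A1 : ℤ) : ℚ) - ((p * B1 : ℤ) : ℚ)) := by
          push_cast
          ring
        rw [e, e3, v_neg, vC]
        exact hv3
      have hnC1 := not_dvd_neg hC1
      have hF : ¬ (p : ℤ) ^ 2 ∣ p * (-(A1 - B1)) := by
        rw [mul_neg, dvd_neg, mul_sub]
        exact hC2
      obtain ⟨k1, k2, k3, k4⟩ := fin (p * B1) (p * (-(A1 - B1))) hB2 hF h1 h2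
      rw [k1, k2, k3, k4, dv_mul, dv_mul, sgn_mul, sgn_mul, sg0_neg hC1, m01, m02, m0, m2]
      clear jA jB jC sgj kA fin
      revert kB kC
      generalize sg0 p B1 = s1
      generalize sg0 p (A1 - B1) = s2
      generalize sg0 p (κ 0) = t1
      generalize sg0 p (κ 1) = t2
      generalize sg0 p (κ 2) = t3
      generalize sg0 p (-1) = t4
      revert neg s1 s2 t1 t2 t3 t4
      decide

theorem good2 : Pool.Agent.W262.SH.GOOD2 := by
  intro p hpf A B hAB e1 e2 he1 he2 hsol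
  obtain ⟨x, hx, hxA', hxB', hs1, hs2, hs3⟩ := hsol
  have hq1 := not_sq_of_squarefree (p := p) he1
  have hq2 := not_sq_of_squarefree (p := p) he2
  have he10 : e1 ≠ 0 := by rintro rfl; exact hq1 (dvd_zero _)
  have he20 : e2 ≠ 0 := by rintro rfl; exact hq2 (dvd_zero _)
  have hxA : x - A ≠ 0 := sub_ne_zero.2 hxA'
  have hxB : x - B ≠ 0 := sub_ne_zero.2 hxB'
  obtain ⟨y, hy, hxy⟩ := exists_y (p := p) hx hxA hxB (Int.cast_ne_zero.2 he10)
    (Int.cast_ne_zero.2 he20) hs1 hs2 hs3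
  obtain ⟨h1, h2, -⟩ := good' p A B hAB x y hy hxy
  have k1 := (par hx hq1 hs1).1 h1
  have k2 := (par hxA hq2 hs2).1 h2
  unfold dv at k1 k2
  exact ⟨by simpa using k1, by simpa using k2⟩

end Pool.Agent.W131.SH
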